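import Pool.Agent.Q152.QT.Stm

/-!
# QT8: pairs of tuples on average over the windows
-/

set_option autoImplicit false

namespace Pool.Agent.Q150.QT

open Finset
open Pool.Agent.Q152.QT

/-- the two windows -/
def xx (k x y : ℕ) : Fin k ⊕ Fin k → ℕ := Sum.elim (fun _ => x) (fun _ => y)

theorem evenT_sq {ι : Type} [Fintype ι] (n : ι → ℕ) (h : EvenT n) : IsSquare (∏ i, n i) := by
  classical
  have h1 : ∏ i, n i = ∏ v ∈ univ.image n, v ^ (univ.filter (fun i => n i = v)).card :=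
    Finset.prod_comp (fun v : ℕ => v) n
  rw [h1]
  refine Finset.prod_induction _ IsSquare (fun a b ha hb => ha.mul hb) IsSquare.one ?_
  intro v _
  have h2 := h v
  rw [Nat.card_eq_fintype_card, Fintype.card_subtype] at h2
  exact Even.isSquare_pow h2 v

theorem not_even {k h x y : ℕ} (hxy : x + h ≤ y ∨ y + h ≤ x) (n : Fin k ⊕ Fin k → ℕ)
    (hn : ∀ i, n i ∈ Ioc (xx k x y i) (xx k x y i + h)) (he : EvenT n) :
    IsSquare (∏ i : Fin k, n (Sum.inl i)) := by
  apply evenT_sq (fun i : Fin k => n (Sum.inl i))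
  intro v
  by_cases hv : x < v ∧ v ≤ x + h
  · have h1 : Nat.card {i : Fin k // n (Sum.inl i) = v} = Nat.card {i : Fin k ⊕ Fin k // n i = v} := by
      apply Nat.card_eq_of_bijective
        (fun i : {i : Fin k // n (Sum.inl i) = v} => (⟨Sum.inl i.1, i.2⟩ : {i : Fin k ⊕ Fin k // n i = v}))
      constructor
      · intro i j hij
        have h2 : (Sum.inl i.1 : Fin k ⊕ Fin k) = Sum.inl j.1 := congrArg Subtype.val hij
        exact Subtype.ext (Sum.inl_injective h2)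
      · rintro ⟨i | i, hi⟩
        · exact ⟨⟨i, hi⟩, rfl⟩
        · exfalso
          have h3 := hn (Sum.inr i)
          unfold xx at h3
          rw [mem_Ioc, Sum.elim_inr, hi] at h3
          omega
    rw [h1]
    exact he v
  · have h1 : IsEmpty {i : Fin k // n (Sum.inl i) = v} := by
      refine ⟨fun i => hv ?_⟩
      have h3 := hn (Sum.inl i.1)
      unfold xx at h3
      rw [mem_Ioc, Sum.elim_inl, i.2] at h3
      exact h3
    rw [Nat.card_of_isEmpty]
    exact Even.zero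

/-- the two windows contain multiples `g s` and `g t` of a large number `g` -/
def Bad (L h x y : ℕ) : Prop := ∃ s t g : ℕ, (1 ≤ s ∧ s ≤ L) ∧ (1 ≤ t ∧ t ≤ L) ∧
  (x < g * s ∧ g * s ≤ x + h) ∧ (y < g * t ∧ g * t ≤ y + h)

theorem cardI (S : Finset ℕ) (A h s t : ℕ) (hs : 1 ≤ s)
    (hS : ∀ y ∈ S, A < (y + h) * s ∧ y * s < A + h * t) : S.card ≤ h * (t + 1) := by
  rcases S.eq_empty_or_nonempty with rfl | hne
  · simp
  · have h1 := hS _ (S.min'_mem hne)
    obtain ⟨y1, hy1⟩ : ∃ y1, y1 = S.min' hne := ⟨_, rfl⟩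
    rw [← hy1] at h1
    have h2 : S ⊆ Ico y1 (y1 + h * (t + 1)) := by
      intro y hy
      rw [mem_Ico]
      refine ⟨by rw [hy1]; exact S.min'_le y hy, ?_⟩
      have h3 := (hS y hy).2
      have h5 : h * t ≤ h * t * s := Nat.le_mul_of_pos_right _ hs
      have h4 : y * s < (y1 + h * (t + 1)) * s := by
        calc y * s < A + h * t := h3
          _ ≤ (y1 + h) * s + h * t := by omega
          _ ≤ (y1 + h) * s + h * t * s := by omega
          _ = (y1 + h * (t + 1)) * s := by ring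
      exact lt_of_mul_lt_mul_right h4 (Nat.zero_le _)
    have := card_le_card h2
    rw [Nat.card_Ico] at this
    omega

open Classical in
theorem cardBad (L h x : ℕ) (I : Finset ℕ) :
    (I.filter (fun y => Bad L h x y)).card ≤ L * L * (h * (L + 1)) := by
  have h1 : I.filter (fun y => Bad L h x y) ⊆ (Icc 1 L ×ˢ Icc 1 L).biUnion
      (fun p => I.filter (fun y => x * p.2 < (y + h) * p.1 ∧ y * p.1 < x * p.2 + h * p.2)) := by
    intro y hy
    rw [mem_filter] at hy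
    obtain ⟨hyI, s, t, g, ⟨s1, s2⟩, ⟨t1, t2⟩, ⟨a1, a2⟩, ⟨b1, b2⟩⟩ := hy
    rw [mem_biUnion]
    refine ⟨(s, t), ?_, ?_⟩
    · rw [mem_product, mem_Icc, mem_Icc]
      exact ⟨⟨s1, s2⟩, t1, t2⟩
    · rw [mem_filter]
      refine ⟨hyI, ?_, ?_⟩
      · show x * t < (y + h) * s
        calc x * t < g * s * t := Nat.mul_lt_mul_of_pos_right a1 t1
          _ = g * t * s := by ring
          _ ≤ (y + h) * s := Nat.mul_le_mul_right s b2
      · show y * s < x * t + h * t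
        calc y * s < g * t * s := Nat.mul_lt_mul_of_pos_right b1 s1
          _ = g * s * t := by ring
          _ ≤ (x + h) * t := Nat.mul_le_mul_right t a2
          _ = x * t + h * t := by ring
  refine (card_le_card h1).trans ?_
  have h2 := Finset.card_biUnion_le_card_mul (Icc 1 L ×ˢ Icc 1 L)
    (fun p => I.filter (fun y => x * p.2 < (y + h) * p.1 ∧ y * p.1 < x * p.2 + h * p.2))
    (h * (L + 1)) (by
      rintro ⟨s, t⟩ hp
      rw [mem_product, mem_Icc, mem_Icc] at hp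
      have h3 := cardI (I.filter (fun y => x * t < (y + h) * s ∧ y * s < x * t + h * t))
        (x * t) h s t hp.1.1 (fun y hy => (mem_filter.1 hy).2)
      refine h3.trans ?_
      exact Nat.mul_le_mul_left h (by have := hp.2.2; simp only at this; omega))
  rw [card_product, Nat.card_Icc, Nat.add_sub_cancel] at h2
  exact h2

theorem SqT_mem {ι : Type} [Fintype ι] (x : ι → ℕ) (h : ℕ) (n : ι → ℕ) :
    n ∈ SqT x h ↔ (∀ i, n i ∈ Ioc (x i) (x i + h)) ∧ (∀ i, Squarefree (n i)) ∧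
      IsSquare (∏ i, n i) := by
  classical
  unfold SqT
  rw [mem_filter, Fintype.mem_piFinset]

/-- the members of a pair of tuples -/
theorem Qk_mem {k h x y : ℕ} {p : (Fin k → ℕ) × (Fin k → ℕ)}
    (h1 : p.1 ∈ Fintype.piFinset fun _ : Fin k => Sf x h)
    (h2 : p.2 ∈ Fintype.piFinset fun _ : Fin k => Sf y h)
    (h3 : IsSquare ((∏ i, p.1 i) * ∏ i, p.2 i)) :
    Sum.elim p.1 p.2 ∈ SqT (xx k x y) h := by
  classical
  rw [Fintype.mem_piFinset] at h1 h2
  rw [SqT_mem]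
  unfold Sf at h1 h2
  simp only [mem_filter] at h1 h2
  refine ⟨?_, ?_, ?_⟩
  · rintro (i | i)
    · exact (h1 i).1
    · exact (h2 i).1
  · rintro (i | i)
    · exact (h1 i).2
    · exact (h2 i).2
  · rw [Fintype.prod_sum_type]
    exact h3

theorem elim_inj {k : ℕ} {p q : (Fin k → ℕ) × (Fin k → ℕ)}
    (h : Sum.elim p.1 p.2 = (Sum.elim q.1 q.2 : Fin k ⊕ Fin k → ℕ)) : p = q := by
  refine Prod.ext ?_ ?_
  · funext i
    exact congrFun h (Sum.inl i)
  · funext i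
    exact congrFun h (Sum.inr i)

open Classical in
theorem Qk_le (k h x y : ℕ) : Qk k h x y ≤ (SqT (xx k x y) h).card := by
  unfold Qk
  apply card_le_card_of_injOn (fun p => Sum.elim p.1 p.2)
  · intro p hp
    rw [mem_coe, mem_filter, mem_product] at hp
    exact Qk_mem hp.1.1 hp.1.2 hp.2.2.2
  · intro p _ q _ hpq
    exact elim_inj hpq

open Classical in
/-- the tuples with a medium greatest common divisor -/
noncomputable def GG (k N h x y : ℕ) (α η : ℝ) (i j : Fin k ⊕ Fin k) : Finset (Fin k ⊕ Fin k → ℕ) :=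
  (SqT (xx k x y) h).filter fun n => (N : ℝ) ^ α ≤ (Nat.gcd (n i) (n j) : ℕ) ∧
    ((Nat.gcd (n i) (n j) : ℕ) : ℝ) ≤ (N : ℝ) ^ (1 - η)

/-- a common divisor of two different elements of a window is smaller than its length -/
theorem gcd_lt {x h m n : ℕ} (hm : x < m ∧ m ≤ x + h) (hn : x < n ∧ n ≤ x + h) (hmn : m ≠ n) :
    Nat.gcd m n < h := by
  rcases Nat.lt_or_gt_of_ne hmn with hlt | hgt
  · have h1 : Nat.gcd m n ∣ n - m := Nat.dvd_sub (Nat.gcd_dvd_right m n) (Nat.gcd_dvd_left m n)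
    have h2 := Nat.le_of_dvd (by omega) h1
    omega
  · have h1 : Nat.gcd m n ∣ m - n := Nat.dvd_sub (Nat.gcd_dvd_left m n) (Nat.gcd_dvd_right m n)
    have h2 := Nat.le_of_dvd (by omega) h1
    omega

theorem quot_le {N g n L : ℕ} {η : ℝ} (hN : 1 ≤ N) (hg : (N : ℝ) ^ (1 - η) < g) (hn : n ≤ 3 * N)
    (hL : L = ⌊3 * (N : ℝ) ^ η⌋₊) (hgn : g ∣ n) : n / g ≤ L := by
  have hN0 : (0 : ℝ) < N := by exact_mod_cast hN
  rw [hL]
  apply Nat.le_floor
  have hg0 : (0 : ℝ) < g := lt_trans (by positivity) hg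
  rw [Nat.cast_div hgn hg0.ne', div_le_iff₀ hg0]
  have h1 : (n : ℝ) ≤ 3 * N := by exact_mod_cast hn
  refine h1.trans ?_
  have h2 : (N : ℝ) ^ η * (N : ℝ) ^ (1 - η) = N := by
    rw [← Real.rpow_add hN0]
    norm_num
  have h3 : (N : ℝ) ^ η * (N : ℝ) ^ (1 - η) ≤ (N : ℝ) ^ η * g :=
    mul_le_mul_of_nonneg_left hg.le (by positivity)
  nlinarith

open Classical in
theorem Qk_le2 (h3 : S_Odd) {k N h x y L : ℕ} {ε η : ℝ} (hk : 1 ≤ k) (hN : 1 ≤ N) (hηε : η ≤ ε)
    (hh : (h : ℝ) ≤ (N : ℝ) ^ (1 - ε)) (hhN : h ≤ N) (hx : x ∈ Ico N (2 * N)) (hy : y ∈ Ico N (2 * N))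
    (hL : L = ⌊3 * (N : ℝ) ^ η⌋₊) (hxy : x + h ≤ y ∨ y + h ≤ x) (hbad : ¬ Bad L h x y) :
    Qk k h x y ≤ ∑ p ∈ (univ : Finset (Fin k ⊕ Fin k)).offDiag,
      (GG k N h x y (1 / (2 * k)) η p.1 p.2).card := by
  have hNr : (1 : ℝ) ≤ N := by exact_mod_cast hN
  have hN0 : (0 : ℝ) < N := by linarith
  have hk0 : (0 : ℝ) < k := by exact_mod_cast hk
  refine le_trans ?_ card_biUnion_le
  unfold Qk
  apply card_le_card_of_injOn (fun p => Sum.elim p.1 p.2)
  · intro p hp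
    rw [mem_coe, mem_filter, mem_product] at hp
    obtain ⟨⟨m1, m2⟩, s1, s2, s3⟩ := hp
    have hmem := Qk_mem m1 m2 s3
    obtain ⟨n, hn⟩ : ∃ n : Fin k ⊕ Fin k → ℕ, n = Sum.elim p.1 p.2 := ⟨_, rfl⟩
    show Sum.elim p.1 p.2 ∈ (_ : Set (Fin k ⊕ Fin k → ℕ))
    rw [← hn] at hmem ⊢
    have hmem' := hmem
    rw [SqT_mem] at hmem'
    obtain ⟨w1, w2, w3⟩ := hmem'
    have hwl : ∀ i : Fin k, x < n (Sum.inl i) ∧ n (Sum.inl i) ≤ x + h := by
      intro i
      have := w1 (Sum.inl i)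
      unfold xx at this
      rwa [mem_Ioc, Sum.elim_inl] at this
    have hwr : ∀ i : Fin k, y < n (Sum.inr i) ∧ n (Sum.inr i) ≤ y + h := by
      intro i
      have := w1 (Sum.inr i)
      unfold xx at this
      rwa [mem_Ioc, Sum.elim_inr] at this
    rw [mem_Ico] at hx hy
    have hbig : ∀ i, N < n i ∧ n i ≤ 3 * N := by
      rintro (i | i)
      · have := hwl i
        omega
      · have := hwr i
        omega
    have hne : ¬ EvenT n := by
      intro he
      apply s1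
      have := not_even hxy n w1 he
      rw [hn] at this
      simpa using this
    obtain ⟨i, j, hij, hle⟩ := h3 _ n w2 (fun i => by have := (hbig i).1; omega) w3 hne
    have hij' : i ≠ j := fun e => hij (by rw [e])
    rw [mem_coe, mem_biUnion]
    refine ⟨(i, j), by rw [mem_offDiag]; exact ⟨mem_univ _, mem_univ _, hij'⟩, ?_⟩
    unfold GG
    rw [mem_filter]
    refine ⟨hmem, ?_, ?_⟩
    · have hc : Fintype.card (Fin k ⊕ Fin k) = 2 * k := by
        rw [Fintype.card_sum, Fintype.card_fin]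
        ring
      rw [hc] at hle
      have h5 : (N : ℝ) ≤ ((Nat.gcd (n i) (n j) : ℕ) : ℝ) ^ (2 * k) := by
        have : N ≤ (Nat.gcd (n i) (n j)) ^ (2 * k) := (hbig i).1.le.trans hle
        exact_mod_cast this
      calc (N : ℝ) ^ ((1 : ℝ) / (2 * k)) ≤ (((Nat.gcd (n i) (n j) : ℕ) : ℝ) ^ (2 * k)) ^ ((1 : ℝ) / (2 * k)) :=
            Real.rpow_le_rpow hN0.le h5 (by positivity)
        _ = ((Nat.gcd (n i) (n j) : ℕ) : ℝ) := by
            rw [← Real.rpow_natCast, ← Real.rpow_mul (by positivity)]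
            push_cast
            rw [mul_one_div_cancel (by positivity), Real.rpow_one]
    · by_contra hcon
      push Not at hcon
      have hgh : h < Nat.gcd (n i) (n j) := by
        have h6 : (N : ℝ) ^ (1 - ε) ≤ (N : ℝ) ^ (1 - η) :=
          Real.rpow_le_rpow_of_exponent_le hNr (by linarith)
        have : (h : ℝ) < ((Nat.gcd (n i) (n j) : ℕ) : ℝ) := by linarith
        exact_mod_cast this
      have hg0 : 0 < Nat.gcd (n i) (n j) := by omega
      have hd1 := Nat.gcd_dvd_left (n i) (n j)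
      have hd2 := Nat.gcd_dvd_right (n i) (n j)
      have q1 := quot_le hN hcon (hbig i).2 hL hd1
      have q2 := quot_le hN hcon (hbig j).2 hL hd2
      have p1 : 1 ≤ n i / Nat.gcd (n i) (n j) :=
        Nat.div_pos (Nat.le_of_dvd (by have := (hbig i).1; omega) hd1) hg0
      have p2 : 1 ≤ n j / Nat.gcd (n i) (n j) :=
        Nat.div_pos (Nat.le_of_dvd (by have := (hbig j).1; omega) hd2) hg0
      have e1 : Nat.gcd (n i) (n j) * (n i / Nat.gcd (n i) (n j)) = n i := Nat.mul_div_cancel' hd1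
      have e2 : Nat.gcd (n i) (n j) * (n j / Nat.gcd (n i) (n j)) = n j := Nat.mul_div_cancel' hd2
      rcases i with i | i <;> rcases j with j | j
      · have := gcd_lt (hwl i) (hwl j) hij
        omega
      · apply hbad
        refine ⟨_, _, Nat.gcd (n (Sum.inl i)) (n (Sum.inr j)), ⟨p1, q1⟩, ⟨p2, q2⟩, ?_, ?_⟩
        · rw [e1]; exact hwl i
        · rw [e2]; exact hwr j
      · apply hbad
        refine ⟨_, _, Nat.gcd (n (Sum.inr i)) (n (Sum.inl j)), ⟨p2, q2⟩, ⟨p1, q1⟩, ?_, ?_⟩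
        · rw [e2]; exact hwl j
        · rw [e1]; exact hwr i
      · have := gcd_lt (hwr i) (hwr j) hij
        omega
  · intro p _ q _ hpq
    exact elim_inj hpq

open Classical in
/-- **QT8** -/
theorem t_Pairs (h1 : S_Triv) (h2 : S_Cnt) (h3 : S_Odd) : S_Pairs := by
  intro k ε hε
  rcases Nat.eq_zero_or_pos k with hk | hk
  · subst hk
    refine ⟨1, 1, one_pos, one_pos, fun N h _ _ _ => ?_⟩
    have h0 : ∀ x y, Qk 0 h x y = 0 := by
      intro x y
      unfold Qk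
      rw [card_eq_zero]
      apply filter_false_of_mem
      intro p _ hp
      apply hp.1
      simp
    simp only [h0]
    simp
    positivity
  have hk0 : (0 : ℝ) < k := by exact_mod_cast hk
  obtain ⟨C1, hC1, H1⟩ := h1 (Fin k ⊕ Fin k) (ε / 4) (by positivity)
  obtain ⟨c2, C2, hc2, hC2, H2⟩ := h2 (Fin k ⊕ Fin k) ε (1 / (2 * k)) (ε / 6) hε (by positivity)
    (by positivity)
  refine ⟨min (ε / 4) c2, 38 * C1 + (2 * k) ^ 2 * C2, lt_min (by positivity) hc2, by positivity, ?_⟩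
  intro N h hN hh1 hh2
  have hNr : (1 : ℝ) ≤ N := by exact_mod_cast hN
  have hN0 : (0 : ℝ) < N := by linarith
  have hhr : (1 : ℝ) ≤ h := (Real.one_le_rpow hNr hε.le).trans hh1
  have hh0 : 1 ≤ h := by exact_mod_cast hhr
  have hhNr : (h : ℝ) ≤ N := by
    refine hh2.trans ?_
    calc (N : ℝ) ^ (1 - ε) ≤ (N : ℝ) ^ (1 : ℝ) := Real.rpow_le_rpow_of_exponent_le hNr (by linarith)
      _ = N := Real.rpow_one _
  have hhN : h ≤ N := by exact_mod_cast hhNr
  have hcard : Fintype.card (Fin k ⊕ Fin k) = 2 * k := by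
    rw [Fintype.card_sum, Fintype.card_fin]
    ring
  have hsq : √(h : ℝ) ^ Fintype.card (Fin k ⊕ Fin k) = (h : ℝ) ^ k := by
    rw [hcard, pow_mul, Real.sq_sqrt (by positivity)]
  obtain ⟨L, hL⟩ : ∃ L : ℕ, L = ⌊3 * (N : ℝ) ^ (ε / 6)⌋₊ := ⟨_, rfl⟩
  have hxx : ∀ x ∈ Ico N (2 * N), ∀ y ∈ Ico N (2 * N), ∀ i, xx k x y i ∈ Ico N (2 * N) := by
    rintro x hx y hy (i | i)
    · exact hx
    · exact hy
  obtain ⟨M1, hM1⟩ : ∃ M1 : ℝ, M1 = C1 * (h : ℝ) ^ k * (N : ℝ) ^ (ε / 4) := ⟨_, rfl⟩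
  obtain ⟨M2, hM2⟩ : ∃ M2 : ℝ, M2 = (2 * k) ^ 2 * (C2 * (h : ℝ) ^ k * (N : ℝ) ^ (-c2)) := ⟨_, rfl⟩
  have hM1p : 0 ≤ M1 := by rw [hM1]; positivity
  have hM2p : 0 ≤ M2 := by rw [hM2]; positivity
  have hpt : ∀ x ∈ Ico N (2 * N), ∀ y ∈ Ico N (2 * N), (Qk k h x y : ℝ) ≤
      (if (x < y + h ∧ y < x + h) ∨ Bad L h x y then M1 else 0) + M2 := by
    intro x hx y hy
    split_ifs with hP
    · have e1 : (Qk k h x y : ℝ) ≤ ((SqT (xx k x y) h).card : ℝ) := by exact_mod_cast Qk_le k h x y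
      have e2 := H1 N h (xx k x y) hh0 hhN (hxx x hx y hy)
      rw [hsq, ← hM1] at e2
      linarith
    · rw [not_or] at hP
      have hxy : x + h ≤ y ∨ y + h ≤ x := by
        have := hP.1
        omega
      have e1 := Qk_le2 h3 (ε := ε) (η := ε / 6) hk hN (by linarith) hh2 hhN hx hy hL hxy hP.2
      have e2 : (Qk k h x y : ℝ) ≤ ∑ p ∈ (univ : Finset (Fin k ⊕ Fin k)).offDiag,
          ((GG k N h x y (1 / (2 * k)) (ε / 6) p.1 p.2).card : ℝ) := by exact_mod_cast e1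
      have e3 : ∑ p ∈ (univ : Finset (Fin k ⊕ Fin k)).offDiag,
          ((GG k N h x y (1 / (2 * k)) (ε / 6) p.1 p.2).card : ℝ) ≤
          ∑ p ∈ (univ : Finset (Fin k ⊕ Fin k)).offDiag, (C2 * (h : ℝ) ^ k * (N : ℝ) ^ (-c2)) := by
        apply sum_le_sum
        rintro ⟨i, j⟩ hp
        rw [mem_offDiag] at hp
        have := H2 N h (xx k x y) hN hh1 hh2 (hxx x hx y hy) i j hp.2.2
        rw [hsq] at this
        exact this
      have e4 : (((univ : Finset (Fin k ⊕ Fin k)).offDiag.card : ℕ) : ℝ) ≤ (2 * k) ^ 2 := by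
        have : (univ : Finset (Fin k ⊕ Fin k)).offDiag.card ≤ (2 * k) ^ 2 := by
          rw [offDiag_card, card_univ, hcard, sq]
          exact Nat.sub_le _ _
        exact_mod_cast this
      rw [sum_const, nsmul_eq_mul] at e3
      have e5 : (((univ : Finset (Fin k ⊕ Fin k)).offDiag.card : ℕ) : ℝ) * (C2 * (h : ℝ) ^ k * (N : ℝ) ^ (-c2)) ≤ M2 := by
        rw [hM2]
        exact mul_le_mul_of_nonneg_right e4 (by positivity)
      linarith
  have hI : (Ico N (2 * N)).card = N := by rw [Nat.card_Ico]; omega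
  have hP : ∀ x, (((Ico N (2 * N)).filter (fun y => (x < y + h ∧ y < x + h) ∨ Bad L h x y)).card : ℝ) ≤
      2 * h + L * L * (h * (L + 1)) := by
    intro x
    have e1 : (Ico N (2 * N)).filter (fun y => (x < y + h ∧ y < x + h) ∨ Bad L h x y) ⊆
        (Ico N (2 * N)).filter (fun y => x < y + h ∧ y < x + h) ∪
          (Ico N (2 * N)).filter (fun y => Bad L h x y) := by
      intro y hy
      rw [mem_filter] at hy
      rw [mem_union, mem_filter, mem_filter]
      rcases hy.2 with h5 | h5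
      · exact Or.inl ⟨hy.1, h5⟩
      · exact Or.inr ⟨hy.1, h5⟩
    have e2 : ((Ico N (2 * N)).filter (fun y => x < y + h ∧ y < x + h)).card ≤ 2 * h := by
      have := cardI ((Ico N (2 * N)).filter (fun y => x < y + h ∧ y < x + h)) x h 1 1 le_rfl (by
        intro y hy
        have := (mem_filter.1 hy).2
        omega)
      omega
    have e3 := cardBad L h x (Ico N (2 * N))
    have e4 : ((Ico N (2 * N)).filter (fun y => (x < y + h ∧ y < x + h) ∨ Bad L h x y)).card ≤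
        2 * h + L * L * (h * (L + 1)) :=
      (card_le_card e1).trans ((card_union_le _ _).trans (add_le_add e2 e3))
    exact_mod_cast e4
  have hsum : ∑ x ∈ Ico N (2 * N), ∑ y ∈ Ico N (2 * N), (Qk k h x y : ℝ) ≤
      N * (M1 * (2 * h + L * L * (h * (L + 1))) + N * M2) := by
    have e1 : ∀ x ∈ Ico N (2 * N), ∑ y ∈ Ico N (2 * N), (Qk k h x y : ℝ) ≤
        M1 * (2 * h + L * L * (h * (L + 1))) + N * M2 := by
      intro x hx
      refine (sum_le_sum (hpt x hx)).trans ?_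
      rw [sum_add_distrib, sum_const, hI, nsmul_eq_mul, ← sum_filter, sum_const, nsmul_eq_mul]
      have e2 := mul_le_mul_of_nonneg_left (hP x) hM1p
      linarith
    refine (sum_le_sum e1).trans ?_
    rw [sum_const, hI, nsmul_eq_mul]
  refine hsum.trans ?_
  -- the powers of `N`
  obtain ⟨w, hw⟩ : ∃ w : ℝ, w = (N : ℝ) ^ (ε / 6) := ⟨_, rfl⟩
  have hw1 : 1 ≤ w := by rw [hw]; exact Real.one_le_rpow hNr (by positivity)
  have hLw : (L : ℝ) ≤ 3 * w := by
    rw [hL, hw]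
    exact Nat.floor_le (by positivity)
  have hL0 : (0 : ℝ) ≤ L := Nat.cast_nonneg L
  have hLL : (L : ℝ) * L * (L + 1) ≤ 36 * w ^ 3 := by
    have e1 : (L : ℝ) + 1 ≤ 4 * w := by linarith
    have e2 : (L : ℝ) * L ≤ (3 * w) * (3 * w) := mul_le_mul hLw hLw hL0 (by linarith)
    calc (L : ℝ) * L * (L + 1) ≤ (3 * w) * (3 * w) * (4 * w) :=
          mul_le_mul e2 e1 (by linarith) (by positivity)
      _ = 36 * w ^ 3 := by ring
  have hw3 : w ^ 3 = (N : ℝ) ^ (ε / 2) := by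
    rw [hw, ← Real.rpow_natCast, ← Real.rpow_mul hN0.le]
    congr 1
    push_cast
    ring
  have hw31 : 1 ≤ w ^ 3 := one_le_pow₀ hw1
  have hfac : (2 * h + L * L * (h * (L + 1)) : ℝ) ≤ 38 * h * w ^ 3 := by
    have e1 : (L * L * (h * (L + 1)) : ℝ) = h * (L * L * (L + 1)) := by ring
    rw [e1]
    have e2 := mul_le_mul_of_nonneg_left hLL (show (0 : ℝ) ≤ h by positivity)
    have e3 : (h : ℝ) ≤ h * w ^ 3 := le_mul_of_one_le_right (by positivity) hw31
    linarith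
  have hmin : (N : ℝ) ^ (-c2) ≤ (N : ℝ) ^ (-(min (ε / 4) c2)) :=
    Real.rpow_le_rpow_of_exponent_le hNr (by have := min_le_right (ε / 4) c2; linarith)
  have hmin2 : (N : ℝ) ^ (-(ε / 4)) ≤ (N : ℝ) ^ (-(min (ε / 4) c2)) :=
    Real.rpow_le_rpow_of_exponent_le hNr (by have := min_le_left (ε / 4) c2; linarith)
  have hA : M1 * (2 * h + L * L * (h * (L + 1))) ≤
      38 * C1 * (N * (h : ℝ) ^ k * (N : ℝ) ^ (-(min (ε / 4) c2))) := by
    have e1 : M1 * (2 * h + L * L * (h * (L + 1))) ≤ M1 * (38 * h * w ^ 3) :=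
      mul_le_mul_of_nonneg_left hfac hM1p
    refine e1.trans ?_
    have e2 : (h : ℝ) * w ^ 3 * (N : ℝ) ^ (ε / 4) ≤ N * (N : ℝ) ^ (-(ε / 4)) := by
      calc (h : ℝ) * w ^ 3 * (N : ℝ) ^ (ε / 4) ≤ (N : ℝ) ^ (1 - ε) * w ^ 3 * (N : ℝ) ^ (ε / 4) := by
            gcongr
        _ = (N : ℝ) ^ (1 - ε + ε / 2 + ε / 4) := by
            rw [hw3, ← Real.rpow_add hN0, ← Real.rpow_add hN0]
        _ = N * (N : ℝ) ^ (-(ε / 4)) := by
            rw [show (1 - ε + ε / 2 + ε / 4 : ℝ) = -(ε / 4) + 1 by ring, Real.rpow_add_one hN0.ne']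
            ring
    calc M1 * (38 * h * w ^ 3) = 38 * C1 * (h : ℝ) ^ k * ((h : ℝ) * w ^ 3 * (N : ℝ) ^ (ε / 4)) := by
          rw [hM1]; ring
      _ ≤ 38 * C1 * (h : ℝ) ^ k * (N * (N : ℝ) ^ (-(ε / 4))) :=
          mul_le_mul_of_nonneg_left e2 (by positivity)
      _ ≤ 38 * C1 * (h : ℝ) ^ k * (N * (N : ℝ) ^ (-(min (ε / 4) c2))) := by
          apply mul_le_mul_of_nonneg_left _ (by positivity)
          exact mul_le_mul_of_nonneg_left hmin2 hN0.le
      _ = _ := by ring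
  have hB : M2 ≤ (2 * k) ^ 2 * C2 * ((h : ℝ) ^ k * (N : ℝ) ^ (-(min (ε / 4) c2))) := by
    calc M2 = (2 * k) ^ 2 * C2 * (h : ℝ) ^ k * (N : ℝ) ^ (-c2) := by rw [hM2]; ring
      _ ≤ (2 * k) ^ 2 * C2 * (h : ℝ) ^ k * (N : ℝ) ^ (-(min (ε / 4) c2)) :=
          mul_le_mul_of_nonneg_left hmin (by positivity)
      _ = _ := by ring
  calc N * (M1 * (2 * h + L * L * (h * (L + 1))) + N * M2) ≤
        N * (38 * C1 * (N * (h : ℝ) ^ k * (N : ℝ) ^ (-(min (ε / 4) c2))) +
          N * ((2 * k) ^ 2 * C2 * ((h : ℝ) ^ k * (N : ℝ) ^ (-(min (ε / 4) c2))))) := by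
        apply mul_le_mul_of_nonneg_left _ hN0.le
        exact add_le_add hA (mul_le_mul_of_nonneg_left hB hN0.le)
    _ = (38 * C1 + (2 * k) ^ 2 * C2) * (N : ℝ) ^ 2 * (h : ℝ) ^ k * (N : ℝ) ^ (-(min (ε / 4) c2)) := by
        ring

end Pool.Agent.Q150.QT
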