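import Pool.Agent.Q57.QT.Stm
import Pool.Agent.Q57.MC.Hyp

set_option autoImplicit false

/-! # Project QT (helper57), job Z2: the volumes for products of powers -/

namespace Pool.Agent.Q150.QT

open MvPolynomial Pool.Agent.W428.MOT Pool.Agent.TH192.MT Pool.Agent.TH192.DT Pool.Agent.Q49.CO
open Pool.Agent.Q57.QT Pool.Agent.Q57.MC

section gen

variable {K : Type} [Field K] {R : Type} [CommRing R] (M : Meas K R)

/-- the volumes depend on the set of polynomials only -/
theorem ZW_range {σ J J' : Type} [Fintype σ] (v : R) (f : J → MvPolynomial σ K)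
    (h : J' → MvPolynomial σ K) (hr : Set.range f = Set.range h) (W : Set (Pt K σ)) :
    ZW M v f W = ZW M v h W := by
  have key : ∀ N m, GW f W N m = GW h W N m := by
    intro N m
    ext z
    rw [mem_GW, mem_GW]
    refine and_congr Iff.rfl ?_
    rw [← Set.forall_mem_range (p := fun P => Vn N (aeval (ar z) P)), hr, Set.forall_mem_range]
  ext N
  simp only [ZW, PowerSeries.coeff_mk, vol, key]

/-- the zero ideal -/
theorem ZW_none {σ J : Type} [Fintype σ] [Finite J] {v : R} (hv : M.L * v = 1)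
    (f : J → MvPolynomial σ K) (hf : ∀ j, f j = 0) {W : Set (Pt K σ)} (hW : Constr W) :
    ZW M v f W = 0 := by
  have key : ∀ N N' m, GW f W N m = GW f W N' m := by
    intro N N' m
    ext z
    rw [mem_GW, mem_GW]
    refine and_congr Iff.rfl (forall_congr' fun j => ?_)
    rw [hf, map_zero]
    constructor <;> intro _ k _ <;> exact map_zero _
  ext N
  rw [map_zero]
  simp only [ZW, PowerSeries.coeff_mk]
  rw [← vol_eq M hv f hW N (N + 1) (by omega), vol, key N (N + 1), sub_self]

/-- additional variables -/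
theorem vol_castAdd {n m : ℕ} {J : Type} [Finite J] {v : R} (hv : M.L * v = 1)
    (f : J → MvPolynomial (Fin n) K) {W : Set (Pt K (Fin n))} (hW : Constr W)
    {W2 : Set (Pt K (Fin m))} (hW2 : Constr W2) {W' : Set (Pt K (Fin (n + m)))}
    (hWW : ∀ z, z ∈ W' ↔ (fun i => z (Fin.castAdd m i)) ∈ W ∧ (fun i => z (Fin.natAdd n i)) ∈ W2)
    (N : ℕ) :
    vol M v (fun j => rename (Fin.castAdd m) (f j)) W' N =
      (M.χ _ W2 * v ^ m) * vol M v f W N := by
  obtain ⟨g, hg⟩ : ∃ g : Fin 0 → MvPolynomial (Fin m) K, g = Fin.elim0 := ⟨_, rfl⟩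
  have h2 : M.χ _ (GW g W2 0 N) * v ^ (m * (N + 1)) = M.χ _ W2 * v ^ m := by
    have h3 := vol_eq M hv g hW2 0 N (by omega)
    rw [vol_zero M hv g hW2, Fintype.card_fin] at h3
    exact h3
  obtain ⟨e, he⟩ : ∃ e : (Fin n × Fin (N + 1)) ⊕ (Fin m × Fin (N + 1)) ≃ Fin (n + m) × Fin (N + 1),
      e = (Equiv.sumProdDistrib _ _ _).symm.trans (finSumFinEquiv.prodCongr (Equiv.refl _)) :=
    ⟨_, rfl⟩
  have el : ∀ q : Fin n × Fin (N + 1), e (Sum.inl q) = (Fin.castAdd m q.1, q.2) := by
    intro q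
    rw [he]
    rfl
  have er : ∀ q : Fin m × Fin (N + 1), e (Sum.inr q) = (Fin.natAdd n q.1, q.2) := by
    intro q
    rw [he]
    rfl
  have cS : Constr {w : Pt K ((Fin n × Fin (N + 1)) ⊕ (Fin m × Fin (N + 1))) |
      (fun i => w (Sum.inl i)) ∈ GW f W N N ∧ (fun i => w (Sum.inr i)) ∈ GW g W2 0 N} :=
    Constr.and ((constr_GW f hW N N).preimage
      (fun (w : Pt K ((Fin n × Fin (N + 1)) ⊕ (Fin m × Fin (N + 1)))) i => w (Sum.inl i))
      fun i => IsPF.coord _) ((constr_GW g hW2 0 N).preimage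
      (fun (w : Pt K ((Fin n × Fin (N + 1)) ⊕ (Fin m × Fin (N + 1)))) i => w (Sum.inr i))
      fun i => IsPF.coord _)
  have h1 : GW (fun j => rename (Fin.castAdd m) (f j)) W' N N = {z | (fun q => z (e q)) ∈
      {w : Pt K ((Fin n × Fin (N + 1)) ⊕ (Fin m × Fin (N + 1))) |
      (fun i => w (Sum.inl i)) ∈ GW f W N N ∧ (fun i => w (Sum.inr i)) ∈ GW g W2 0 N}} := by
    ext z
    rw [mem_GW, Set.mem_ofPred_eq, Set.mem_ofPred_eq, mem_GW, mem_GW, hWW]
    simp only [el, er]
    have h3 : ∀ j, aeval (ar z) (rename (Fin.castAdd m) (f j)) =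
        aeval (ar fun q : Fin n × Fin (N + 1) => z (Fin.castAdd m q.1, q.2)) (f j) := by
      intro j
      rw [aeval_rename]
      rfl
    simp only [h3]
    constructor
    · rintro ⟨⟨h4, h5⟩, h6⟩
      exact ⟨⟨h4, h6⟩, h5, fun j => j.elim0⟩
    · rintro ⟨⟨h4, h5⟩, h6, -⟩
      exact ⟨⟨h4, h6⟩, h5⟩
  unfold vol
  rw [h1, chi_reindex M e cS, M.prod _ _ (constr_GW f hW N N) (constr_GW g hW2 0 N),
    Fintype.card_fin, Fintype.card_fin, add_mul, pow_add, ← h2]
  ring

theorem ZW_castAdd {n m : ℕ} {J : Type} [Finite J] {v : R} (hv : M.L * v = 1)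
    (f : J → MvPolynomial (Fin n) K) {W : Set (Pt K (Fin n))} (hW : Constr W)
    {W2 : Set (Pt K (Fin m))} (hW2 : Constr W2) {W' : Set (Pt K (Fin (n + m)))}
    (hWW : ∀ z, z ∈ W' ↔ (fun i => z (Fin.castAdd m i)) ∈ W ∧ (fun i => z (Fin.natAdd n i)) ∈ W2) :
    ZW M v (fun j => rename (Fin.castAdd m) (f j)) W' =
      PowerSeries.C (M.χ _ W2 * v ^ m) * ZW M v f W := by
  ext N
  rw [PowerSeries.coeff_C_mul]
  simp only [ZW, PowerSeries.coeff_mk]
  rw [vol_castAdd M hv f hW hW2 hWW, vol_castAdd M hv f hW hW2 hWW]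
  ring

end gen

theorem nv_iff {σ : Type} (x : σ) (P : MvPolynomial σ ℂ) :
    x ∉ P.vars ↔ P ∈ supported ℂ ({x}ᶜ : Set σ) := by
  rw [mem_supported, Set.subset_compl_singleton_iff]
  exact Iff.rfl

section main

variable {n T r : ℕ} (f : Fin T → Fin r → MvPolynomial (Fin n) ℂ) (a : Fin T → ℕ)

/-- the variable `y_(t, j)` -/
def yv (n : ℕ) {T r : ℕ} (t : Fin T) (j : Fin r) : Fin (n + T * r) :=
  Fin.natAdd n (finProdFinEquiv (t, j))

theorem yv_inj (t u : Fin T) (i j : Fin r) (h : yv n t i = yv n u j) : t = u ∧ i = j := by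
  unfold yv at h
  have h1 := finProdFinEquiv.injective (Fin.natAdd_injective _ n h)
  exact ⟨congrArg Prod.fst h1, congrArg Prod.snd h1⟩

/-- the `f_(t, j)` in the larger polynomial ring -/
noncomputable def up (t : Fin T) (j : Fin r) : MvPolynomial (Fin (n + T * r)) ℂ :=
  rename (Fin.castAdd (T * r)) (f t j)

theorem up_supp (t u : Fin T) (i j : Fin r) : up f t j ∈ supported ℂ ({yv n u i}ᶜ : Set _) := by
  rw [mem_supported]
  intro x hx
  have h1 := vars_rename (Fin.castAdd (T * r)) (f t j) hx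
  obtain ⟨y, -, rfl⟩ := Finset.mem_image.1 h1
  rw [Set.mem_compl_iff, Set.mem_singleton_iff]
  intro h2
  have h3 := congrArg Fin.val h2
  unfold yv at h3
  rw [Fin.val_castAdd, Fin.val_natAdd] at h3
  have := y.2
  omega

theorem hypT_eq (t : Fin T) : hypT f t = ∑ j, X (yv n t j) * up f t j := rfl

theorem hypT_supp {t u : Fin T} (h : t ≠ u) (i : Fin r) :
    hypT f t ∈ supported ℂ ({yv n u i}ᶜ : Set _) := by
  rw [hypT_eq]
  refine Subalgebra.sum_mem _ fun j _ => Subalgebra.mul_mem _ ?_ (up_supp f t u i j)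
  rw [X_mem_supported, Set.mem_compl_iff, Set.mem_singleton_iff]
  intro h1
  exact h (yv_inj t u j i h1).1

theorem step (hB : StBlock) {R : Type} [CommRing R] (M : Meas ℂ R) (v : R) (hv : M.L * v = 1)
    (ha : ∀ t, 1 ≤ a t) (hne : Nonempty (∀ t : Fin T, Fin (a t) → Fin r)) (s : Finset (Fin T)) :
    ∀ (K : Type) [Fintype K] (g : K → MvPolynomial (Fin (n + T * r)) ℂ),
      (∀ t ∈ s, ∀ (j : Fin r) k, g k ∈ supported ℂ ({yv n t j}ᶜ : Set _)) →
      ZW M v (fun k => (∏ t ∈ s, hypT f t ^ a t) * g k) Set.univ =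
        (∏ t ∈ s, PowerSeries.C (1 - v) * gA v (a t)) *
        ZW M v (fun q : (∀ t : Fin T, Fin (a t) → Fin r) × K =>
          (∏ t ∈ s, pw (a t) (up f t) (q.1 t)) * g q.2) Set.univ ∧
      ZW M v (fun k => (∏ t ∈ s, hypT f t ^ a t) * g k) {0} =
        (∏ t ∈ s, PowerSeries.C (1 - v) * (PowerSeries.X ^ a t * gA v (a t))) *
        ZW M v (fun q : (∀ t : Fin T, Fin (a t) → Fin r) × K =>
          (∏ t ∈ s, pw (a t) (up f t) (q.1 t)) * g q.2) {0} := by
  classical
  induction s using Finset.induction_on with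
  | empty =>
    intro K _ g _
    have h1 : ∀ W, ZW M v (fun k => (∏ t ∈ (∅ : Finset (Fin T)), hypT f t ^ a t) * g k) W =
        ZW M v (fun q : (∀ t : Fin T, Fin (a t) → Fin r) × K =>
          (∏ t ∈ (∅ : Finset (Fin T)), pw (a t) (up f t) (q.1 t)) * g q.2) W := by
      intro W
      refine ZW_range M v _ _ ?_ W
      simp only [Finset.prod_empty, one_mul]
      ext P
      constructor
      · rintro ⟨k, rfl⟩
        exact ⟨(hne.some, k), rfl⟩
      · rintro ⟨q, rfl⟩
        exact ⟨q.2, rfl⟩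
    constructor
    · rw [h1, Finset.prod_empty, one_mul]
    · rw [h1, Finset.prod_empty, one_mul]
  | insert t s ht ih =>
    intro K _ g hg
    have hb := hB M v hv (yv n t) (fun i j h => (yv_inj t t i j h).2) (up f t)
      (fun k => (∏ u ∈ s, hypT f u ^ a u) * g k)
      (fun i j => (nv_iff _ _).2 (up_supp f t t i j))
      (fun i k => (nv_iff _ _).2 (Subalgebra.mul_mem _ (Subalgebra.prod_mem _ fun u hu =>
        Subalgebra.pow_mem _ (hypT_supp f (fun h : u = t => ht (h ▸ hu)) i) _)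
        (hg t (Finset.mem_insert_self _ _) i k))) (a t) (ha t)
    have hi := ih ((Fin (a t) → Fin r) × K) (fun q => pw (a t) (up f t) q.1 * g q.2)
      (fun u hu j k => Subalgebra.mul_mem _ (Subalgebra.prod_mem _ fun i _ => up_supp f t u j _)
        (hg u (Finset.mem_insert_of_mem hu) j k.2))
    have e1 : (fun k => (∏ u ∈ insert t s, hypT f u ^ a u) * g k) =
        fun k => (∑ j, X (yv n t j) * up f t j) ^ a t * ((∏ u ∈ s, hypT f u ^ a u) * g k) := by
      funext k
      rw [Finset.prod_insert ht, mul_assoc]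
      rfl
    have e2 : (fun q : (Fin (a t) → Fin r) × K =>
        pw (a t) (up f t) q.1 * ((∏ u ∈ s, hypT f u ^ a u) * g q.2)) =
        fun q => (∏ u ∈ s, hypT f u ^ a u) * (pw (a t) (up f t) q.1 * g q.2) := by
      funext q
      rw [mul_left_comm]
    have h1 : ∀ W, ZW M v (fun q : (∀ t : Fin T, Fin (a t) → Fin r) × ((Fin (a t) → Fin r) × K) =>
          (∏ u ∈ s, pw (a u) (up f u) (q.1 u)) * (pw (a t) (up f t) q.2.1 * g q.2.2)) W =
        ZW M v (fun q : (∀ t : Fin T, Fin (a t) → Fin r) × K =>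
          (∏ u ∈ insert t s, pw (a u) (up f u) (q.1 u)) * g q.2) W := by
      intro W
      refine ZW_range M v _ _ ?_ W
      ext P
      constructor
      · rintro ⟨⟨j, i, k⟩, rfl⟩
        refine ⟨(Function.update j t i, k), ?_⟩
        simp only
        rw [Finset.prod_insert ht, Function.update_self]
        have h2 : ∏ u ∈ s, pw (a u) (up f u) (Function.update j t i u) =
            ∏ u ∈ s, pw (a u) (up f u) (j u) := by
          refine Finset.prod_congr rfl fun u hu => ?_
          have hut : u ≠ t := fun h => ht (h ▸ hu)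
          rw [Function.update_of_ne hut]
        rw [h2]
        ring
      · rintro ⟨⟨j, k⟩, rfl⟩
        refine ⟨(j, j t, k), ?_⟩
        simp only
        rw [Finset.prod_insert ht]
        ring
    constructor
    · rw [e1, hb.1, e2, hi.1, h1, Finset.prod_insert ht]
      ring
    · rw [e1, hb.2, e2, hi.2, h1, Finset.prod_insert ht]
      ring

end main

theorem qt_prodz (hB : StBlock) : StProdZ := by
  classical
  intro R _ M v hv n T r f a ha
  rcases isEmpty_or_nonempty (∀ t : Fin T, Fin (a t) → Fin r) with hE | hE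
  · -- the zero ideals
    have hr : r = 0 := by
      by_contra h
      exact hE.elim fun _ _ => ⟨0, by omega⟩
    have hT : 0 < T := by
      by_contra h
      have hT0 : T = 0 := by omega
      subst hT0
      exact hE.elim fun t => t.elim0
    subst hr
    have h1 : (fun _ : Fin 1 => ∏ t, hypT f t ^ a t) = fun _ => 0 := by
      funext _
      refine Finset.prod_eq_zero (Finset.mem_univ (⟨0, hT⟩ : Fin T)) ?_
      have : hypT f (⟨0, hT⟩ : Fin T) = 0 := by
        rw [hypT_eq, Finset.univ_eq_empty, Finset.sum_empty]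
      rw [this, zero_pow]
      have := ha ⟨0, hT⟩
      omega
    have h2 : IsEmpty ((Σ t : Fin T, Fin (a t)) → Fin 0) := by
      constructor
      intro j
      exact (j ⟨⟨0, hT⟩, ⟨0, by have := ha ⟨0, hT⟩; omega⟩⟩).elim0
    rw [h1]
    constructor
    · rw [ZW_none M hv _ (fun _ => rfl) Constr.univ, ZW_none M hv (powF a f)
        (fun j => h2.elim j) Constr.univ, mul_zero]
    · rw [ZW_none M hv _ (fun _ => rfl) constr_pt0, ZW_none M hv (powF a f)
        (fun j => h2.elim j) constr_pt0, mul_zero]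
  have hs := step f a hB M v hv ha hE Finset.univ (Fin 1) (fun _ => 1)
    (fun t _ j _ => Subalgebra.one_mem _)
  have e1 : (fun _ : Fin 1 => ∏ t, hypT f t ^ a t) = fun _ => (∏ t, hypT f t ^ a t) * 1 := by
    funext _
    rw [mul_one]
  have e2 : ∀ W, ZW M v (fun q : (∀ t : Fin T, Fin (a t) → Fin r) × Fin 1 =>
      (∏ t, pw (a t) (up f t) (q.1 t)) * 1) W =
      ZW M v (fun j => rename (Fin.castAdd (T * r)) (powF a f j)) W := by
    intro W
    refine ZW_range M v _ _ ?_ W
    have key : ∀ j : (Σ t : Fin T, Fin (a t)) → Fin r,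
        rename (Fin.castAdd (T * r)) (powF a f j) =
        ∏ t, pw (a t) (up f t) (fun i => j ⟨t, i⟩) := by
      intro j
      unfold powF pw
      rw [map_prod, ← Finset.univ_sigma_univ, Finset.prod_sigma]
      rfl
    ext P
    constructor
    · rintro ⟨q, rfl⟩
      refine ⟨fun x => q.1 x.1 x.2, ?_⟩
      simp only
      rw [key, mul_one]
    · rintro ⟨j, rfl⟩
      refine ⟨(fun t i => j ⟨t, i⟩, 0), ?_⟩
      simp only
      rw [key, mul_one]
  have e3 : ZW M v (fun j => rename (Fin.castAdd (T * r)) (powF a f j)) Set.univ =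
      ZW M v (powF a f) Set.univ := by
    rw [ZW_castAdd M hv (powF a f) Constr.univ (Constr.univ (ι := Fin (T * r)))
      (fun z => by simp), chi_univ, Fintype.card_fin, ← mul_pow, hv, one_pow, map_one, one_mul]
  have e4 : ZW M v (fun j => rename (Fin.castAdd (T * r)) (powF a f j)) {0} =
      PowerSeries.C (v ^ (T * r)) * ZW M v (powF a f) {0} := by
    rw [ZW_castAdd M hv (powF a f) constr_pt0 (constr_pt0 (σ := Fin (T * r)))
      (fun z => by
        rw [Set.mem_singleton_iff, Set.mem_singleton_iff, Set.mem_singleton_iff]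
        constructor
        · intro h
          rw [h]
          exact ⟨rfl, rfl⟩
        · rintro ⟨h1, h2⟩
          funext i
          refine Fin.addCases (fun i => ?_) (fun i => ?_) i
          · exact congrFun h1 i
          · exact congrFun h2 i), chi_pt0, one_mul]
  rw [e1]
  constructor
  · rw [hs.1, e2, e3]
  · rw [hs.2, e2, e4]
    ring

end Pool.Agent.Q150.QT
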